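import Pool.Agent.L7h51.KM.Stm

set_option autoImplicit false

/-! Project KM, part DEL: the weak Delta system lemma. -/

namespace Pool.Agent.L7h29.KM

open Set Cardinal Pool.Agent.L7h51.KM

universe u

theorem small_union {α ι : Type u} {l : Cardinal.{u}} (hl : l.IsRegular) (t : ι → Set α)
    (hι : Cardinal.mk ι < l) (h : ∀ i, Cardinal.mk (t i) < l) : Cardinal.mk (⋃ i, t i) < l :=
  (card_iUnion_lt_iff_forall_of_isRegular hl hι).mpr h

theorem small_pair {α : Type u} {l : Cardinal.{u}} (hl : l.IsRegular) (s t : Set α)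
    (hs : Cardinal.mk s < l) (ht : Cardinal.mk t < l) : Cardinal.mk (s ∪ t : Set α) < l :=
  (mk_union_le s t).trans_lt (add_lt_of_lt hl.aleph0_le hs ht)

theorem s_DEL : S_DEL.{u} := by
  classical
  intro α ι W r l hr hl hrl hι hW
  by_contra hcon
  push Not at hcon
  have hcon' : ∀ (G : Set α) (S : Set ι), Cardinal.mk G < l →
      S.PairwiseDisjoint (fun i => W i \ G) → Cardinal.mk S < l := by
    intro G S hG hS
    have h1 : Cardinal.mk S ≤ l := hι ▸ mk_set_le S
    exact lt_of_le_of_ne h1 (fun h2 => hcon G S hG h2 hS)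
  -- one step
  have hstep : ∀ G : Set α, ∃ G' : Set α, Cardinal.mk G < l →
      (G ⊆ G' ∧ Cardinal.mk G' < l ∧ ∀ i, W i ⊆ G' ∨ ∃ x ∈ W i, x ∈ G' ∧ x ∉ G) := by
    intro G
    by_cases hG : Cardinal.mk G < l
    · obtain ⟨S, hS⟩ := zorn_subset {S : Set ι | S.PairwiseDisjoint (fun i => W i \ G)} (by
        intro c hc hchain
        refine ⟨⋃₀ c, ?_, fun s hs => subset_sUnion_of_mem hs⟩
        exact (pairwiseDisjoint_sUnion hchain.directedOn).mpr (fun a ha => hc ha))
      have hSsm : Cardinal.mk S < l := hcon' G S hG hS.prop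
      refine ⟨G ∪ ⋃ i : S, W i, fun _ => ⟨subset_union_left, ?_, ?_⟩⟩
      · exact small_pair hl _ _ hG (small_union hl _ hSsm (fun i => (hW i).trans hrl))
      · intro i
        by_cases hi : i ∈ S
        · left
          exact (subset_iUnion (fun j : S => W j) ⟨i, hi⟩).trans subset_union_right
        · right
          by_contra hno
          push Not at hno
          apply hi
          have hins : (insert i S) ∈ {S : Set ι | S.PairwiseDisjoint (fun i => W i \ G)} := by
            show (insert i S).PairwiseDisjoint (fun i => W i \ G)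
            rw [pairwiseDisjoint_insert]
            refine ⟨hS.prop, ?_⟩
            intro j hj _
            show Disjoint (W i \ G) (W j \ G)
            rw [Set.disjoint_left]
            rintro x ⟨hx1, hx2⟩ ⟨hx3, _⟩
            exact hx2 (hno x hx1 (Or.inr (mem_iUnion.mpr ⟨⟨j, hj⟩, hx3⟩)))
          exact hS.le_of_ge hins (subset_insert i S) (mem_insert i S)
    · exact ⟨G, fun h => absurd h hG⟩
  choose next hnext using hstep
  -- the iteration
  let I := r.ord.ToType
  have hI : Cardinal.mk I = r := mk_ord_toType r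
  let Gs : I → Set α := IsWellFounded.fix (α := I) (· < ·)
    (fun ν rec => ⋃ ν' : {x : I // x < ν}, next (rec ν'.1 ν'.2))
  have hGs : ∀ ν : I, Gs ν = ⋃ ν' : {x : I // x < ν}, next (Gs ν'.1) := by
    intro ν
    simp only [Gs]
    rw [IsWellFounded.fix_eq]
  have hsm : ∀ ν : I, Cardinal.mk (Gs ν) < l := by
    intro ν
    induction ν using WellFoundedLT.induction with
    | _ ν ih =>
      rw [hGs ν]
      apply small_union hl
      · exact (mk_subtype_le _).trans_lt (hI ▸ hrl)
      · intro ν'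
        exact (hnext (Gs ν'.1) (ih ν'.1 ν'.2)).2.1
  have hmono : ∀ ν μ : I, ν < μ → next (Gs ν) ⊆ Gs μ := by
    intro ν μ h
    rw [hGs μ]
    exact subset_iUnion (fun ν' : {x : I // x < μ} => next (Gs ν'.1)) ⟨ν, h⟩
  let Gst : Set α := ⋃ ν : I, next (Gs ν)
  have hGst : Cardinal.mk Gst < l :=
    small_union hl _ (hI ▸ hrl) (fun ν => (hnext (Gs ν) (hsm ν)).2.1)
  have hall : ∀ i, W i ⊆ Gst := by
    intro i
    by_cases h : ∃ ν, W i ⊆ next (Gs ν)
    · obtain ⟨ν, hν⟩ := h
      exact hν.trans (subset_iUnion (fun ν => next (Gs ν)) ν)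
    · exfalso
      push Not at h
      have h1 : ∀ ν, ∃ x ∈ W i, x ∈ next (Gs ν) ∧ x ∉ Gs ν := fun ν =>
        ((hnext (Gs ν) (hsm ν)).2.2 i).resolve_left (h ν)
      choose x hx1 hx2 hx3 using h1
      have hinj : Function.Injective (fun ν : I => (⟨x ν, hx1 ν⟩ : W i)) := by
        intro ν μ hνμ
        have h2 : x ν = x μ := congrArg Subtype.val hνμ
        rcases lt_trichotomy ν μ with h3 | h3 | h3
        · exact absurd (h2 ▸ hmono ν μ h3 (hx2 ν)) (hx3 μ)
        · exact h3
        · exact absurd (h2 ▸ hmono μ ν h3 (hx2 μ)) (hx3 ν)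
      have h4 := mk_le_of_injective hinj
      rw [hI] at h4
      exact absurd (hW i) (not_lt.mpr h4)
  have h5 := hcon' Gst Set.univ hGst (by
    intro i _ j _ _
    show Disjoint (W i \ Gst) (W j \ Gst)
    rw [diff_eq_empty.mpr (hall i)]
    exact disjoint_bot_left)
  rw [mk_univ, hι] at h5
  exact lt_irrefl _ h5

end Pool.Agent.L7h29.KM
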