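import Pool.Agent.L7h51.KM.Stm

set_option autoImplicit false

/-! Project KM, part IND. -/

namespace Pool.Agent.L7h29.KM

open Set Cardinal Pool.Agent.L7h51.KM

universe u

theorem s_IND (hSK : S_SK.{u}) : S_IND.{u} := by
  classical
  intro α ι M B G W Q S hB hGB hWB hpd hind hdis hcl
  have hBE : B ⊆ M.E := hB.subset_ground
  have hE : G ∪ ⋃ i ∈ S, Q i ⊆ M.E := by
    apply union_subset (hGB.trans hBE)
    apply iUnion₂_subset
    intro i hi
    exact (hcl i hi).trans (M.closure_subset_ground _)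
  by_contra hnot
  obtain ⟨C, hCs, hC⟩ := ((Matroid.not_indep_iff hE).mp hnot).exists_isCircuit_subset
  -- the circuit meets some `Q i`
  have hmeet : ∃ i ∈ S, ∃ q ∈ C, q ∈ Q i := by
    by_contra hno
    push Not at hno
    apply hC.not_indep
    apply (hB.subset hGB).subset
    intro x hx
    rcases hCs hx with h | h
    · exact h
    · rw [mem_iUnion₂] at h
      obtain ⟨i, hi, hxi⟩ := h
      exact absurd hxi (hno i hi x hx)
  obtain ⟨i, hi, q, hqC, hqQ⟩ := hmeet
  have hq1 : q ∈ M.closure (C \ {q}) := hC.mem_closure_sdiff_singleton_of_mem hqC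
  set G' : Set α := G ∪ W i with hG'
  set Q' : Set α := ⋃ j ∈ S \ {i}, (W j \ G) with hQ'
  set P : Set α := G ∪ (Q i \ {q}) with hP
  have hG'B : G' ⊆ B := union_subset hGB (hWB i)
  have hQ'B : Q' ⊆ B := by
    apply iUnion₂_subset
    intro j _
    exact sdiff_subset.trans (hWB j)
  have hdisj : Disjoint G' Q' := by
    rw [Set.disjoint_left]
    intro x hx hx'
    rw [hQ', mem_iUnion₂] at hx'
    obtain ⟨j, hj, hxj⟩ := hx'
    rcases hx with h | h
    · exact hxj.2 h
    · have h1 := hpd hi hj.1 (fun h2 => hj.2 h2.symm)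
      exact Set.disjoint_left.mp h1 ⟨h, hxj.2⟩ hxj
  have hPcl : P ⊆ M.closure G' := by
    apply union_subset
    · exact (M.subset_closure G (hGB.trans hBE)).trans
        (M.closure_subset_closure subset_union_left)
    · exact sdiff_subset.trans ((hcl i hi).trans (M.closure_subset_closure subset_union_right))
  have hPE : P ⊆ M.E := hPcl.trans (M.closure_subset_ground _)
  have hQ'E : Q' ⊆ M.E := hQ'B.trans hBE
  have hCq : C \ {q} ⊆ M.closure (P ∪ Q') := by
    rintro x ⟨hx, hxq⟩
    have hPQ : P ∪ Q' ⊆ M.closure (P ∪ Q') := M.subset_closure _ (union_subset hPE hQ'E)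
    rcases hCs hx with h | h
    · exact hPQ (Or.inl (Or.inl h))
    · rw [mem_iUnion₂] at h
      obtain ⟨j, hj, hxj⟩ := h
      by_cases hji : j = i
      · rw [hji] at hxj
        exact hPQ (Or.inl (Or.inr ⟨hxj, hxq⟩))
      · have h1 : W j ⊆ P ∪ Q' := by
          intro y hy
          by_cases hyG : y ∈ G
          · exact Or.inl (Or.inl hyG)
          · right
            rw [hQ', mem_iUnion₂]
            exact ⟨j, ⟨hj, hji⟩, hy, hyG⟩
        exact M.closure_subset_closure h1 (hcl j hj hxj)
  have hq2 : q ∈ M.closure (P ∪ Q') := by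
    have h1 := M.closure_subset_closure hCq hq1
    rwa [M.closure_closure] at h1
  have hq3 : q ∈ M.closure G' :=
    M.closure_subset_closure subset_union_right (hcl i hi hqQ)
  have hq4 := hSK α M G' Q' P (hB.subset (union_subset hG'B hQ'B)) hdisj hPcl ⟨hq2, hq3⟩
  have hqG : q ∉ G := fun h => Set.disjoint_left.mp (hdis i hi) h hqQ
  have hPeq : (G ∪ Q i) \ {q} = P := by
    rw [hP, union_diff_distrib, diff_singleton_eq_self hqG]
  have hq5 := (hind i hi).notMem_closure_sdiff_of_mem (Or.inr hqQ : q ∈ G ∪ Q i)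
  rw [hPeq] at hq5
  exact hq5 hq4

end Pool.Agent.L7h29.KM
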